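import Pool.Agent.Lib.MP_39c2b7_co.Interfaces2

/-!
Module HUBX: a certified conjunction of statuses does not hold around any hub.
-/

set_option autoImplicit false

namespace StrongArb.H15

open StrongArb

lemma stat_eq {V : Type} {G : SimpleGraph V} {X : Set V} {v : V} {d : ℕ} (hd : d ≤ 8)
    (h : stat G X v = d) : v ∈ X ∧ dg G v = d := by
  unfold stat at h
  split_ifs at h with h1
  · exact ⟨h1.1, h⟩
  · omega

lemma per_mod {α : Type} (f : ℕ → α) (D : ℕ) (hf : ∀ i, f (i + D) = f i) (i m : ℕ) :
    f (i + m % D) = f (i + m) := by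
  have h : ∀ k i, f (i + D * k) = f i := by
    intro k
    induction k with
    | zero => intro i; simp
    | succ k ih => intro i; rw [Nat.mul_succ, ← add_assoc, hf, ih]
  have h2 : i + m = (i + m % D) + D * (m / D) := by
    have := Nat.mod_add_div m D
    omega
  rw [h2, h]

/-- the labelling of the complex around a hub -/
def lab {V : Type} (h : V) (n o : ℕ → V) (xs : ℕ → ℕ → V) (a : ℕ) : V :=
  if a = 0 then h
  else if a < 1000 then (if a % 3 = 1 then n (a / 3) else o (a / 3))
  else xs ((a - 1000) / 10) ((a - 1000) % 10)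

section
variable {V : Type} (h : V) (n o : ℕ → V) (xs : ℕ → ℕ → V)

lemma lab_zero : lab h n o xs 0 = h := by simp [lab]

lemma lab_ln (j : ℕ) (hj : j ≤ 20) : lab h n o xs (ln j) = n j := by
  have h1 : (3 * j + 1) % 3 = 1 := by omega
  have h2 : (3 * j + 1) / 3 = j := by omega
  unfold lab ln
  rw [if_neg (by omega), if_pos (by omega), if_pos h1, h2]

lemma lab_lo (j : ℕ) (hj : j ≤ 20) : lab h n o xs (lo j) = o j := by
  have h1 : (3 * j + 2) % 3 ≠ 1 := by omega
  have h2 : (3 * j + 2) / 3 = j := by omega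
  unfold lab lo
  rw [if_neg (by omega), if_pos (by omega), if_neg h1, h2]

lemma lab_lx (j k : ℕ) (hk : k < 10) : lab h n o xs (lx j k) = xs j k := by
  have h1 : (1000 + 10 * j + k - 1000) / 10 = j := by omega
  have h2 : (1000 + 10 * j + k - 1000) % 10 = k := by omega
  unfold lab lx
  rw [if_neg (by omega), if_neg (by omega), h1, h2]

end

lemma getD_le_of_ne {a : List ℕ} {j : ℕ} (h : a.getD j 0 ≠ 0) : j < a.length := by
  by_contra h1
  exact h (List.getD_eq_default _ _ (by omega))

/-- the base complex around a hub is realized -/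
theorem base_real (hapi : LinkApi) {V : Type} {G : SimpleGraph V} {X : Set V} {h : V}
    {n o : ℕ → V} {D : ℕ} (hs : HubSeq G h n o D) (hl : HubLinks G h n o) (t : ℕ) (D' : ℕ)
    (a : List ℕ) (hD' : D' = 0 ∨ (D' = D ∧ h ∈ X ∧ a.length = D'))
    (ha0 : D' = 0 → a.getD 0 0 = 0) (hlen : a.length ≤ 20)
    (hst : ∀ j, a.getD j 0 ≠ 0 → 4 ≤ a.getD j 0 ∧ a.getD j 0 ≤ 8 ∧ n (t + 1 + j) ∈ X ∧
      dg G (n (t + 1 + j)) = a.getD j 0) :
    ∃ ψ : ℕ → V, (∀ j, j ≤ 20 → ψ (lo j) = o (t + 1 + j)) ∧ Realizes G X (baseE D' a) ψ := by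
  have hD4 := hs.four
  have h5 : ∀ j, ∃ xs : List V, 5 ≤ dg G (n (t + j + 1)) →
      xs.length + 5 = dg G (n (t + j + 1)) ∧
      IsLink G (n (t + j + 1)) ([h, n (t + j + 2), o (t + j + 1)] ++ xs ++
        [o (t + j), n (t + j)]) := by
    intro j
    by_cases h5 : 5 ≤ dg G (n (t + j + 1))
    · obtain ⟨xs, hxs⟩ := hl.five (t + j) h5
      exact ⟨xs, fun _ => hxs⟩
    · exact ⟨[], fun h => absurd h h5⟩
  choose xs hxs using h5
  set ψ : ℕ → V := lab h (fun j => n (t + 1 + j)) (fun j => o (t + 1 + j))
    (fun j k => (xs j).getD k h) with hψ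
  have hψ0 : ψ 0 = h := lab_zero _ _ _ _
  have hψn : ∀ j, j ≤ 20 → ψ (ln j) = n (t + 1 + j) := fun j hj => lab_ln _ _ _ _ j hj
  have hψo : ∀ j, j ≤ 20 → ψ (lo j) = o (t + 1 + j) := fun j hj => lab_lo _ _ _ _ j hj
  have hψx : ∀ j k, k < 10 → ψ (lx j k) = (xs j).getD k h := fun j k hk => lab_lx _ _ _ _ j k hk
  have hD20 : D' ≤ 20 := by
    rcases hD' with h1 | h1
    · omega
    · omega
  -- next and previous positions
  have hsc : ∀ j, j < a.length → (a.getD j 0 ≠ 0) → ψ (ln (sc D' j)) = n (t + j + 2) := by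
    intro j hj haj
    unfold sc
    split_ifs with h0
    · rw [hψn _ (by omega)]
      congr 1; omega
    · have hDD : D' = D := by
        rcases hD' with h1 | h1
        · exact absurd h1 h0
        · exact h1.1
      rw [hψn _ ((Nat.mod_lt _ (Nat.pos_of_ne_zero h0)).le.trans hD20), hDD,
        per_mod n D hs.perN]
      congr 1; omega
  have hpr_le : ∀ j, j ≤ 20 → pr D' j ≤ 20 := by
    intro j hj
    unfold pr
    split_ifs with h0
    · omega
    · exact (Nat.mod_lt _ (Nat.pos_of_ne_zero h0)).le.trans hD20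
  have hprf : ∀ f : ℕ → V, (∀ i, f (i + D) = f i) → ∀ j, (a.getD j 0 ≠ 0) →
      f (t + 1 + pr D' j) = f (t + j) := by
    intro f hf j haj
    unfold pr
    split_ifs with h0
    · have hj0 : j ≠ 0 := by
        rintro rfl
        exact haj (ha0 h0)
      congr 1; omega
    · have hDD : D' = D := by
        rcases hD' with h1 | h1
        · exact absurd h1 h0
        · exact h1.1
      rw [hDD, per_mod f D hf, ← hf (t + j)]
      congr 1; omega
  have hprn : ∀ j, j ≤ 20 → (a.getD j 0 ≠ 0) → ψ (ln (pr D' j)) = n (t + j) := by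
    intro j hj haj
    rw [hψn _ (hpr_le j hj)]
    exact hprf n hs.perN j haj
  have hlor : ∀ j, j ≤ 20 → ψ (lor D' a j) = o (t + 1 + j) := by
    intro j hj
    unfold lor
    split_ifs with h4
    · have haj : a.getD j 0 ≠ 0 := by omega
      rw [hψo _ (hpr_le j hj), hprf o hs.perO j haj]
      have h6 := (hl.four (t + j) (by
        have := (hst j haj).2.2.2
        rw [show t + j + 1 = t + 1 + j by omega, this, h4])).1
      rw [h6]
      congr 1; omega
    · exact hψo j hj
  refine ⟨ψ, hψo, ?_⟩
  intro e he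
  unfold baseE at he
  rw [List.mem_append] at he
  rcases he with he | he
  · -- the hub
    split_ifs at he with h0
    · simp at he
    · obtain ⟨hDD, hhX, -⟩ : D' = D ∧ h ∈ X ∧ a.length = D' := by
        rcases hD' with h1 | h1
        · exact absurd h1 h0
        · exact h1
      rw [List.mem_singleton] at he
      subst he
      refine ⟨by simpa only [hψ0] using hhX, ?_⟩
      simp only [hψ0]
      have h7 := hapi.rotate V G h _ (t + 1) hs.link
      have h8 : ((List.range D').map ln).map ψ = ((List.range D).map n).rotate (t + 1) := by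
        apply List.ext_getElem
        · simp [hDD]
        · intro i h1 h2
          have hi : i < D := by simpa [hDD] using h1
          rw [List.getElem_rotate]
          simp only [List.getElem_map, List.getElem_range, List.length_map, List.length_range]
          rw [hψn i (by omega)]
          have h9 := per_mod n D hs.perN 0 (i + (t + 1))
          simp only [Nat.zero_add] at h9
          rw [h9]
          congr 1; omega
      rw [h8]
      exact h7
  · -- a neighbour
    rw [List.mem_map] at he
    obtain ⟨j, hj, rfl⟩ := he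
    rw [List.mem_filter, List.mem_range] at hj
    obtain ⟨hj1, hj2⟩ := hj
    have haj : a.getD j 0 ≠ 0 := by
      rw [Nat.blt_eq] at hj2
      omega
    obtain ⟨ha4, ha8, hnX, hdg⟩ := hst j haj
    have hj20 : j ≤ 20 := by omega
    have hidx : t + j + 1 = t + 1 + j := by omega
    unfold entN
    split_ifs with h4
    · refine ⟨by simpa only [hψn j hj20] using hnX, ?_⟩
      have h6 := (hl.four (t + j) (by rw [hidx, hdg, h4])).2
      simp only [List.map_cons, List.map_nil, hψ0, hψn j hj20, hsc j hj1 haj, hlor j hj20,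
        hprn j hj20 haj]
      rw [hidx] at h6
      exact h6
    · have hge : 5 ≤ dg G (n (t + j + 1)) := by rw [hidx, hdg]; omega
      obtain ⟨hx1, hx2⟩ := hxs j hge
      rw [hidx, hdg] at hx1
      refine ⟨by simpa only [hψn j hj20] using hnX, ?_⟩
      have hxx : ((List.range (a.getD j 0 - 5)).map (lx j)).map ψ = xs j := by
        apply List.ext_getElem
        · simp only [List.length_map, List.length_range]; omega
        · intro i h1 h2
          simp only [List.getElem_map, List.getElem_range]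
          rw [hψx j i (by omega), List.getD_eq_getElem _ _ h2]
      have hpo : ψ (lor D' a (pr D' j)) = o (t + j) := by
        rw [hlor _ (hpr_le j hj20)]
        exact hprf o hs.perO j haj
      simp only [List.map_append, List.map_cons, List.map_nil, hψ0, hψn j hj20, hsc j hj1 haj,
        hlor j hj20, hxx, hpo, hprn j hj20 haj]
      rw [hidx] at hx2
      exact hx2

lemma memB_iff (l : List ℕ) (a : ℕ) : memB l a = true ↔ a ∈ l := by
  unfold memB
  rw [List.any_eq_true]
  constructor
  · rintro ⟨x, hx, h⟩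
    have := Nat.eq_of_beq_eq_true h
    exact this ▸ hx
  · intro h
    exact ⟨a, h, Nat.beq_refl a⟩

lemma nodupB_of_nodup (l : List ℕ) (h : l.Nodup) : nodupB l = true := by
  induction l with
  | nil => rfl
  | cons a t ih =>
    rw [List.nodup_cons] at h
    unfold nodupB
    rw [ih h.2, Bool.and_true, Bool.not_eq_true', ← Bool.not_eq_true, memB_iff]
    exact h.1

/-- the steps of `addO` keep the realization -/
theorem addO_real (hext : ExtStatement) {V : Type} {G : SimpleGraph V} {X : Set V}
    (hG : MinCE G) (b : List ℕ) (hb : b.length ≤ 20) (O : ℕ → V)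
    (hO : ∀ j, b.getD j 0 ≠ 0 → O j ∈ X ∧ dg G (O j) = b.getD j 0) :
    ∀ (os : List (ℕ × List ℕ)) (E : Entries) (ψ : ℕ → V),
      (∀ j, j ≤ 20 → ψ (lo j) = O j) → Realizes G X E ψ → HubCert.stepsB b os E = true →
      ∃ ψ' : ℕ → V, Realizes G X (HubCert.addO b os E) ψ' := by
  intro os
  induction os with
  | nil => intro E ψ _ h2 _; exact ⟨ψ, h2⟩
  | cons q t ih =>
    intro E ψ h1 h2 h3
    unfold HubCert.stepsB at h3
    simp only [Bool.and_eq_true] at h3
    obtain ⟨⟨⟨⟨hs1, hs2⟩, hs3⟩, hs4⟩, hs5⟩ := h3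
    have hs1' : 4 ≤ b.getD q.1 0 := Nat.le_of_ble_eq_true hs1
    have hs2' : q.2.length ≤ b.getD q.1 0 := Nat.le_of_ble_eq_true hs2
    have hb0 : b.getD q.1 0 ≠ 0 := by omega
    have hq : q.1 < b.length := getD_le_of_ne hb0
    set fr : List ℕ := (List.range (b.getD q.1 0 - q.2.length)).map (ly q.1) with hfr
    have hfrmem : ∀ y ∈ fr, 2000 ≤ y := by
      intro y hy
      rw [hfr, List.mem_map] at hy
      obtain ⟨k, _, rfl⟩ := hy
      unfold ly; omega
    have hlo : ∀ j, j ≤ 20 → lo j ∉ fr := by
      intro j hj hmem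
      have := hfrmem _ hmem
      unfold lo at this
      omega
    obtain ⟨ψ', hψ1, hψ2⟩ := hext V G X hG E (lo q.1) (b.getD q.1 0) q.2 fr ψ h2 hs3
      (by rw [hfr, List.length_map, List.length_range]; omega)
      (by
        apply nodupB_of_nodup
        rw [hfr]
        refine List.Nodup.map ?_ List.nodup_range
        intro x y hxy
        unfold ly at hxy
        omega)
      (by
        intro y hy
        refine ⟨?_, ?_, ?_⟩
        · rw [hfr, List.mem_map] at hy
          obtain ⟨k, hk, rfl⟩ := hy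
          have := List.all_eq_true.1 hs4 k hk
          rw [Bool.and_eq_true] at this
          exact this.1
        · rintro rfl
          exact hlo q.1 (by omega) hy
        · rw [hfr, List.mem_map] at hy
          obtain ⟨k, hk, rfl⟩ := hy
          have := List.all_eq_true.1 hs4 k hk
          rw [Bool.and_eq_true] at this
          intro hmem
          have h9 := this.2
          rw [Bool.not_eq_true', ← Bool.not_eq_true, memB_iff] at h9
          exact h9 hmem)
      (by rw [h1 q.1 (by omega)]; exact (hO q.1 hb0).1)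
      (by rw [h1 q.1 (by omega)]; exact (hO q.1 hb0).2)
    unfold HubCert.addO
    refine ih _ ψ' ?_ hψ2 hs5
    intro j hj
    rw [hψ1 _ (hlo j hj), h1 j hj]

/-- Module HUBX. -/
theorem hubx (hlink : HubLinkStatement) (hext : ExtStatement) (hmatch : MatchStatement)
    (hapi : LinkApi) : HubXStatement := by
  intro V G C X hG _hR c links hok hexcl h n o D hseq hD s hholds
  have hl := hlink V G hG h n o D hseq
  unfold HubCert.okB at hok
  simp only [Bool.and_eq_true] at hok
  obtain ⟨⟨⟨⟨⟨⟨hk1, hk2⟩, hk3⟩, hk4⟩, hk5⟩, hk6⟩, hk7⟩ := hok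
  have hk4' : c.a.length ≤ 20 := Nat.le_of_ble_eq_true hk4
  have hk5' : c.b.length ≤ 20 := Nat.le_of_ble_eq_true hk5
  have hrange : ∀ l : List ℕ, (l.all fun x => Nat.beq x 0 || (Nat.ble 4 x && Nat.ble x 8)) = true →
      ∀ j, l.getD j 0 ≠ 0 → 4 ≤ l.getD j 0 ∧ l.getD j 0 ≤ 8 := by
    intro l hl j hj
    have hj' := getD_le_of_ne hj
    rw [List.getD_eq_getElem _ _ hj'] at hj ⊢
    have := List.all_eq_true.1 hl _ (List.getElem_mem hj')
    rw [Bool.or_eq_true, Bool.and_eq_true] at this
    rcases this with h1 | h1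
    · exact absurd (Nat.eq_of_beq_eq_true h1) hj
    · exact ⟨Nat.le_of_ble_eq_true h1.1, Nat.le_of_ble_eq_true h1.2⟩
  have hD4 := hseq.four
  have hshift : ∀ f : ℕ → V, (∀ i, f (i + D) = f i) → ∀ j,
      f (s + (D - 1) + 1 + j) = f (s + j) := by
    intro f hf j
    rw [← hf (s + j)]
    congr 1; omega
  obtain ⟨ψ, hψ1, hψ2⟩ := base_real (X := X) hapi hseq hl (s + (D - 1)) c.D c.a
    (by
      rcases hD with h1 | ⟨h1, h2⟩
      · exact Or.inl h1
      · right
        refine ⟨h1, h2, ?_⟩
        rw [if_neg (by omega)] at hk1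
        simp only [Bool.and_eq_true] at hk1
        exact Nat.eq_of_beq_eq_true hk1.1.2)
    (by
      intro h0
      rw [if_pos h0] at hk1
      exact Nat.eq_of_beq_eq_true hk1)
    hk4'
    (by
      intro j hj
      obtain ⟨h4, h8⟩ := hrange c.a hk2 j hj
      have h9 := stat_eq h8 ((hholds j).1 hj)
      refine ⟨h4, h8, ?_, ?_⟩
      · rw [hshift n hseq.perN]; exact h9.1
      · rw [hshift n hseq.perN]; exact h9.2)
  obtain ⟨ψ', hψ'⟩ := addO_real hext hG c.b hk5' (fun j => o (s + (D - 1) + 1 + j))
    (by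
      intro j hj
      obtain ⟨h4, h8⟩ := hrange c.b hk3 j hj
      have h9 := stat_eq h8 ((hholds j).2 hj)
      simp only [hshift o hseq.perO]
      exact h9)
    c.os (baseE c.D c.a) ψ hψ1 hψ2 hk6
  exact hmatch V G X _ _ c.iota hk7 hexcl ⟨ψ', hψ'⟩

end StrongArb.H15
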